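import Pool.Agent.R730.Bz.MainB

set_option autoImplicit false

namespace Pool.Agent.Results.MP_70ae0e_co.TwoAdicWeighted

open Pool.Agent.R730.Bz

/-- The weighted number of stone-and-bone tilings of the `(n, 2n - 3)`-benzel, `n ≥ 4`, every stone
having weight `3`, is a 2-adically continuous function of `n`. -/
theorem result : ∀ k : ℕ, ∃ m : ℕ, ∀ n n' : ℤ, 4 ≤ n → 4 ≤ n' → n ≡ n' [ZMOD 2 ^ m] →
    (T113w 3 n (2 * n - 3) : ℤ) ≡ (T113w 3 n' (2 * n' - 3) : ℤ) [ZMOD 2 ^ k] := by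
  have h := to_int (T113w_in_twoAdic (q := 3) (by decide)) 2
    (fun n => (T113w 3 n (2 * n - 3) : ℤ)) (by
    intro m hm
    show (T113w 3 ((m : ℤ) + 2) (2 * ((m : ℤ) + 2) - 3) : ℤ) = T113w 3 ((m : ℤ) + 2) (2 * m + 1)
    rw [show 2 * ((m : ℤ) + 2) - 3 = 2 * m + 1 by ring])
  exact h

end Pool.Agent.Results.MP_70ae0e_co.TwoAdicWeighted
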